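import Mathlib
import Pool.Agent.Helper25.Fourier

set_option autoImplicit false

namespace Pool.Agent.Helper25.MD

open Finset Pool.Agent.Helper25

lemma dft_parseval {Q : ℕ} (hQ : 0 < Q) (c : ℕ → ℂ) :
    ∑ j ∈ range Q, ‖∑ r ∈ range Q, c r * ex ((j : ℝ) / Q * r)‖ ^ 2
      = Q * ∑ r ∈ range Q, ‖c r‖ ^ 2 := by
  have h : ((∑ j ∈ range Q, ‖∑ r ∈ range Q, c r * ex ((j : ℝ) / Q * r)‖ ^ 2 : ℝ) : ℂ)
      = ((Q * ∑ r ∈ range Q, ‖c r‖ ^ 2 : ℝ) : ℂ) := by
    push_cast
    have h1 : ∀ j ∈ range Q, ((‖∑ r ∈ range Q, c r * ex ((j : ℝ) / Q * r)‖ : ℝ) : ℂ) ^ 2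
        = ∑ r ∈ range Q, ∑ r' ∈ range Q, c r * (starRingEnd ℂ) (c r') *
          ex ((j : ℝ) / Q * ((r - r' : ℤ) : ℝ)) := by
      intro j _
      rw [← Complex.mul_conj', map_sum, Finset.sum_mul_sum]
      apply Finset.sum_congr rfl
      intro r _
      apply Finset.sum_congr rfl
      intro r' _
      rw [map_mul, conj_ex]
      have : (j : ℝ) / Q * ((r - r' : ℤ) : ℝ) = (j : ℝ) / Q * r + -((j : ℝ) / Q * r') := by
        push_cast
        ring
      rw [this, ex_add]
      ring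
    rw [Finset.sum_congr rfl h1]
    have h2 : ∑ j ∈ range Q, ∑ r ∈ range Q, ∑ r' ∈ range Q, c r * (starRingEnd ℂ) (c r') *
          ex ((j : ℝ) / Q * ((r - r' : ℤ) : ℝ))
        = ∑ r ∈ range Q, ∑ r' ∈ range Q, c r * (starRingEnd ℂ) (c r') *
          ∑ j ∈ range Q, ex ((j : ℝ) / Q * ((r - r' : ℤ) : ℝ)) := by
      rw [Finset.sum_comm]
      apply Finset.sum_congr rfl
      intro r _
      rw [Finset.sum_comm]
      apply Finset.sum_congr rfl
      intro r' _
      rw [Finset.mul_sum]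
    rw [h2]
    simp only [orth hQ]
    rw [Finset.mul_sum]
    apply Finset.sum_congr rfl
    intro r hr
    rw [mem_range] at hr
    rw [Finset.sum_eq_single r]
    · rw [sub_self, if_pos (dvd_zero _), ← Complex.mul_conj']
      ring
    · intro r' hr' hne
      rw [mem_range] at hr'
      rw [if_neg, mul_zero]
      intro hdvd
      apply hne
      have h3 := Int.eq_zero_of_abs_lt_dvd hdvd (by rw [abs_lt]; constructor <;> omega)
      omega
    · intro h4
      exact absurd (mem_range.mpr hr) h4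
  exact_mod_cast h

lemma corr_l2 {N J : ℕ} (w b : ℕ → ℂ) (hb : ∀ l, J ≤ l → b l = 0) {S : ℝ}
    (hS : ∀ θ : ℝ, ‖∑ n ∈ range N, w n * ex (n * θ)‖ ≤ S) :
    ∑ j ∈ range J, ‖∑ n ∈ range N, w n * b (j + n)‖ ^ 2 ≤ S ^ 2 * ∑ l ∈ range J, ‖b l‖ ^ 2 := by
  rcases Nat.eq_zero_or_pos J with hJ | hJ
  · subst hJ
    simp
  set Q := J + N with hQdef
  have hQ : 0 < Q := by omega
  have hQR : (0 : ℝ) < Q := by exact_mod_cast hQ
  have hQC : (Q : ℂ) ≠ 0 := by exact_mod_cast hQ.ne'
  -- the transforms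
  set W : ℕ → ℂ := fun r => ∑ n ∈ range N, w n * ex (n * ((r : ℝ) / Q)) with hW
  set B : ℕ → ℂ := fun r => ∑ l ∈ range J, b l * ex (-((r : ℝ) / Q * l)) with hB
  have hR : ∀ j ∈ range J, ∑ n ∈ range N, w n * b (j + n)
      = 1 / (Q : ℂ) * ∑ r ∈ range Q, (W r * B r) * ex ((j : ℝ) / Q * r) := by
    intro j hj
    rw [mem_range] at hj
    have e1 : ∀ r ∈ range Q, (W r * B r) * ex ((j : ℝ) / Q * r)
        = ∑ n ∈ range N, ∑ l ∈ range J, w n * b l * ex ((r : ℝ) / Q * ((n - l + j : ℤ) : ℝ)) := by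
      intro r _
      rw [hW, hB]
      simp only
      rw [Finset.sum_mul_sum, Finset.sum_mul]
      apply Finset.sum_congr rfl
      intro n _
      rw [Finset.sum_mul]
      apply Finset.sum_congr rfl
      intro l _
      have : (r : ℝ) / Q * ((n - l + j : ℤ) : ℝ)
          = n * ((r : ℝ) / Q) + (-((r : ℝ) / Q * l) + (j : ℝ) / Q * r) := by
        push_cast
        ring
      rw [this, ex_add, ex_add]
      ring
    rw [Finset.sum_congr rfl e1]
    have e2 : ∑ r ∈ range Q, ∑ n ∈ range N, ∑ l ∈ range J,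
        w n * b l * ex ((r : ℝ) / Q * ((n - l + j : ℤ) : ℝ))
        = ∑ n ∈ range N, ∑ l ∈ range J, w n * b l *
          ∑ r ∈ range Q, ex ((r : ℝ) / Q * ((n - l + j : ℤ) : ℝ)) := by
      rw [Finset.sum_comm]
      apply Finset.sum_congr rfl
      intro n _
      rw [Finset.sum_comm]
      apply Finset.sum_congr rfl
      intro l _
      rw [Finset.mul_sum]
    rw [e2]
    simp only [orth hQ]
    rw [Finset.mul_sum]
    apply Finset.sum_congr rfl
    intro n hn
    rw [mem_range] at hn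
    by_cases hjn : j + n < J
    · rw [Finset.sum_eq_single (j + n)]
      · have : ((n : ℤ) - ((j + n : ℕ) : ℤ) + j) = 0 := by push_cast; ring
        rw [this, if_pos (dvd_zero _)]
        field_simp
      · intro l hl hne
        rw [mem_range] at hl
        rw [if_neg, mul_zero]
        intro hdvd
        have h3 := Int.eq_zero_of_abs_lt_dvd hdvd (by rw [abs_lt]; constructor <;> push_cast [hQdef] <;> omega)
        omega
      · intro h4
        exact absurd (mem_range.mpr hjn) h4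
    · rw [hb _ (by omega), mul_zero]
      rw [Finset.sum_eq_zero, mul_zero]
      intro l hl
      rw [mem_range] at hl
      rw [if_neg, mul_zero]
      intro hdvd
      have h3 := Int.eq_zero_of_abs_lt_dvd hdvd (by rw [abs_lt]; constructor <;> push_cast [hQdef] <;> omega)
      omega
  have hBsum : ∑ r ∈ range Q, ‖B r‖ ^ 2 = Q * ∑ l ∈ range J, ‖b l‖ ^ 2 := by
    have e1 : ∀ r ∈ range Q, ‖B r‖ ^ 2
        = ‖∑ l ∈ range Q, (starRingEnd ℂ) (b l) * ex ((r : ℝ) / Q * l)‖ ^ 2 := by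
      intro r _
      congr 1
      rw [← Complex.norm_conj (B r), hB]
      simp only
      rw [map_sum]
      congr 1
      have e3 : ∑ l ∈ range Q, (starRingEnd ℂ) (b l) * ex ((r : ℝ) / Q * l)
          = ∑ l ∈ range J, (starRingEnd ℂ) (b l) * ex ((r : ℝ) / Q * l) := by
        symm
        apply Finset.sum_subset
        · intro l hl
          rw [mem_range] at hl ⊢
          omega
        · intro l _ hl
          rw [mem_range] at hl
          rw [hb l (by omega), map_zero, zero_mul]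
      rw [e3]
      apply Finset.sum_congr rfl
      intro l _
      rw [map_mul, conj_ex, neg_neg]
    rw [Finset.sum_congr rfl e1, dft_parseval hQ]
    congr 1
    symm
    have e4 : ∑ l ∈ range J, ‖b l‖ ^ 2 = ∑ l ∈ range J, ‖(starRingEnd ℂ) (b l)‖ ^ 2 := by
      apply Finset.sum_congr rfl
      intro l _
      rw [Complex.norm_conj]
    rw [e4]
    apply Finset.sum_subset
    · intro l hl
      rw [mem_range] at hl ⊢
      omega
    · intro l _ hl
      rw [mem_range] at hl
      rw [hb l (by omega), map_zero, norm_zero]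
      norm_num
  have hS0 : 0 ≤ S := le_trans (norm_nonneg _) (hS 0)
  calc ∑ j ∈ range J, ‖∑ n ∈ range N, w n * b (j + n)‖ ^ 2
      = ∑ j ∈ range J, ‖1 / (Q : ℂ) * ∑ r ∈ range Q, (W r * B r) * ex ((j : ℝ) / Q * r)‖ ^ 2 :=
        Finset.sum_congr rfl (fun j hj => by rw [hR j hj])
    _ ≤ ∑ j ∈ range Q, ‖1 / (Q : ℂ) * ∑ r ∈ range Q, (W r * B r) * ex ((j : ℝ) / Q * r)‖ ^ 2 := by
        apply Finset.sum_le_sum_of_subset_of_nonneg
        · intro l hl
          rw [mem_range] at hl ⊢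
          omega
        · intro _ _ _
          positivity
    _ = 1 / (Q : ℝ) ^ 2 * ∑ j ∈ range Q, ‖∑ r ∈ range Q, (W r * B r) * ex ((j : ℝ) / Q * r)‖ ^ 2 := by
        rw [Finset.mul_sum]
        apply Finset.sum_congr rfl
        intro j _
        rw [norm_mul, norm_div, norm_one, Complex.norm_natCast]
        ring
    _ = 1 / (Q : ℝ) ^ 2 * (Q * ∑ r ∈ range Q, ‖W r * B r‖ ^ 2) := by
        rw [dft_parseval hQ]
    _ ≤ 1 / (Q : ℝ) ^ 2 * (Q * ∑ r ∈ range Q, S ^ 2 * ‖B r‖ ^ 2) := by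
        apply mul_le_mul_of_nonneg_left _ (by positivity)
        apply mul_le_mul_of_nonneg_left _ hQR.le
        apply Finset.sum_le_sum
        intro r _
        rw [norm_mul, mul_pow]
        apply mul_le_mul_of_nonneg_right _ (by positivity)
        exact pow_le_pow_left₀ (norm_nonneg _) (hS _) 2
    _ = S ^ 2 * ∑ l ∈ range J, ‖b l‖ ^ 2 := by
        rw [← Finset.mul_sum, hBsum]
        field_simp

end Pool.Agent.Helper25.MD
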