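import Mathlib
import Pool.Agent.MobQ.Defs
import Pool.Agent.Helper25.MD.Parseval

set_option autoImplicit false

namespace Pool.Agent.Helper25.MD

open Finset Pool.Agent.Helper25 Pool.Agent.MobQ

lemma mu_abs (n : ℕ) : |mu n| ≤ 1 := by
  unfold mu
  have := ArithmeticFunction.abs_moebius_le_one (n := n)
  exact_mod_cast this

/-- tail of `∑ 1/(M (log M)^{6/5})` -/
lemma step_log {M : ℕ} (hM : 4 ≤ M) :
    (Real.log M) ^ (-(6 / 5) : ℝ) / M ≤
      5 * ((Real.log ((M : ℝ) - 1)) ^ (-(1 / 5) : ℝ) - (Real.log M) ^ (-(1 / 5) : ℝ)) := by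
  have hMR : (4 : ℝ) ≤ M := by exact_mod_cast hM
  set f : ℝ → ℝ := fun x => -5 * (Real.log x) ^ (-(1 / 5) : ℝ) with hf
  have hlog : ∀ x : ℝ, (M : ℝ) - 1 ≤ x → 0 < Real.log x := by
    intro x hx
    exact Real.log_pos (by linarith)
  have hder : ∀ x : ℝ, (M : ℝ) - 1 ≤ x → HasDerivAt f ((Real.log x) ^ (-(6 / 5) : ℝ) / x) x := by
    intro x hx
    have h1 := hlog x hx
    have hx0 : x ≠ 0 := by linarith
    have h2 := (Real.hasDerivAt_log hx0).rpow_const (p := (-(1 / 5) : ℝ)) (Or.inl h1.ne')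
    have h3 := h2.const_mul (-5 : ℝ)
    refine h3.congr_deriv ?_
    have : (-(1 / 5) : ℝ) - 1 = -(6 / 5) := by norm_num
    rw [this]
    field_simp
  obtain ⟨ξ, hξ, hξ2⟩ := exists_hasDerivAt_eq_slope f (fun x => (Real.log x) ^ (-(6 / 5) : ℝ) / x)
    (show (M : ℝ) - 1 < M by linarith)
    (fun x hx => (hder x hx.1).continuousAt.continuousWithinAt)
    (fun x hx => hder x hx.1.le)
  have h4 : (Real.log M) ^ (-(6 / 5) : ℝ) / M ≤ (Real.log ξ) ^ (-(6 / 5) : ℝ) / ξ := by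
    have hξ0 : 0 < ξ := by linarith [hξ.1]
    have hl := hlog ξ hξ.1.le
    apply div_le_div₀ (Real.rpow_nonneg hl.le _) _ hξ0 hξ.2.le
    apply Real.rpow_le_rpow_of_nonpos hl _ (by norm_num)
    exact Real.log_le_log hξ0 hξ.2.le
  have h5 : (Real.log ξ) ^ (-(6 / 5) : ℝ) / ξ = f M - f ((M : ℝ) - 1) := by
    have : (M : ℝ) - ((M : ℝ) - 1) = 1 := by ring
    rw [hξ2, this, div_one]
  rw [h5] at h4
  refine le_trans h4 (le_of_eq ?_)
  rw [hf]
  ring

lemma tail_log (a b : ℕ) (ha : 4 ≤ a) :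
    ∑ M ∈ Ico a b, (Real.log M) ^ (-(6 / 5) : ℝ) / M ≤ 5 * (Real.log ((a : ℝ) - 1)) ^ (-(1 / 5) : ℝ) := by
  have haR : (4 : ℝ) ≤ a := by exact_mod_cast ha
  have hla : 0 < Real.log ((a : ℝ) - 1) := Real.log_pos (by linarith)
  rcases Nat.lt_or_ge b a with h | h
  · rw [Finset.Ico_eq_empty (by omega), Finset.sum_empty]
    have := Real.rpow_nonneg hla.le (-(1 / 5) : ℝ)
    linarith
  · have key : ∀ n : ℕ, ∑ M ∈ Ico a (a + n), (Real.log M) ^ (-(6 / 5) : ℝ) / M ≤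
        5 * ((Real.log ((a : ℝ) - 1)) ^ (-(1 / 5) : ℝ) -
          (Real.log (((a + n : ℕ) : ℝ) - 1)) ^ (-(1 / 5) : ℝ)) := by
      intro n
      induction n with
      | zero => simp
      | succ n ih =>
        rw [← add_assoc, Finset.sum_Ico_succ_top (by omega)]
        have h1 := step_log (M := a + n) (by omega)
        have h2 : (((a + n + 1 : ℕ) : ℝ) - 1) = ((a + n : ℕ) : ℝ) := by push_cast; ring
        rw [h2]
        linarith
    have h1 := key (b - a)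
    rw [show a + (b - a) = b by omega] at h1
    refine le_trans h1 ?_
    have hb : (4 : ℝ) ≤ b := by exact_mod_cast le_trans ha h
    have hlb : 0 < Real.log ((b : ℝ) - 1) := Real.log_pos (by linarith)
    have := Real.rpow_nonneg hlb.le (-(1 / 5) : ℝ)
    linarith

lemma tail_log_small {η : ℝ} (hη : 0 < η) : ∃ a₀ : ℕ, 4 ≤ a₀ ∧ ∀ a b : ℕ, a₀ ≤ a →
    ∑ M ∈ Ico a b, (Real.log M) ^ (-(6 / 5) : ℝ) / M ≤ η := by
  have h1 : Filter.Tendsto (fun a : ℕ => 5 * (Real.log ((a : ℝ) - 1)) ^ (-(1 / 5) : ℝ))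
      Filter.atTop (nhds (5 * 0)) := by
    apply Filter.Tendsto.const_mul
    apply (tendsto_rpow_neg_atTop (by norm_num : (0 : ℝ) < 1 / 5)).comp
    apply Real.tendsto_log_atTop.comp
    exact Filter.tendsto_atTop_add_const_right _ _ tendsto_natCast_atTop_atTop
  rw [mul_zero] at h1
  obtain ⟨a₀, ha₀⟩ := (h1.eventually (gt_mem_nhds hη)).exists_forall_of_atTop
  refine ⟨max a₀ 4, le_max_right _ _, ?_⟩
  intro a b ha
  refine le_trans (tail_log a b (le_trans (le_max_right _ _) ha)) ?_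
  exact (ha₀ a (le_trans (le_max_left _ _) ha)).le

/-- plain correlation -/
noncomputable def SC (w v : ℕ → ℝ) (N p : ℕ) : ℝ := ∑ n ∈ range N, w (p + n) * v n

lemma SC_lip {w : ℕ → ℝ} (hw : ∀ n, |w n| ≤ 1) (N h p : ℕ) :
    |SC w mu (N + h) p - SC w mu N p| ≤ h := by
  have e : SC w mu (N + h) p - SC w mu N p = ∑ n ∈ Ico N (N + h), w (p + n) * mu n := by
    unfold SC
    rw [← Finset.sum_range_add_sum_Ico _ (by omega : N ≤ N + h)]
    ring
  rw [e]
  calc _ ≤ ∑ n ∈ Ico N (N + h), |w (p + n) * mu n| := Finset.abs_sum_le_sum_abs _ _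
    _ ≤ ∑ n ∈ Ico N (N + h), (1 : ℝ) := by
        apply Finset.sum_le_sum
        intro n _
        rw [abs_mul]
        exact mul_le_one₀ (hw _) (abs_nonneg _) (mu_abs n)
    _ = h := by simp

lemma SC_v1 {w v₁ : ℕ → ℝ} (hw : ∀ n, |w n| ≤ 1) {N p : ℕ} {η : ℝ} (hη : 0 ≤ η)
    (h : ∑ n ∈ range N, v₁ n ^ 2 ≤ η ^ 2 * N) : |SC w v₁ N p| ≤ η * N := by
  have h1 : (SC w v₁ N p) ^ 2 ≤ (∑ n ∈ range N, w (p + n) ^ 2) * ∑ n ∈ range N, v₁ n ^ 2 :=
    Finset.sum_mul_sq_le_sq_mul_sq _ _ _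
  have h2 : ∑ n ∈ range N, w (p + n) ^ 2 ≤ N := by
    calc ∑ n ∈ range N, w (p + n) ^ 2 ≤ ∑ n ∈ range N, (1 : ℝ) := by
          apply Finset.sum_le_sum
          intro n _
          rw [← sq_abs]
          exact pow_le_one₀ (abs_nonneg _) (hw _)
      _ = N := by simp
  have h3 : (SC w v₁ N p) ^ 2 ≤ (η * N) ^ 2 := by
    calc (SC w v₁ N p) ^ 2 ≤ (∑ n ∈ range N, w (p + n) ^ 2) * ∑ n ∈ range N, v₁ n ^ 2 := h1
      _ ≤ N * (η ^ 2 * N) := mul_le_mul h2 h (Finset.sum_nonneg (fun _ _ => sq_nonneg _)) (by positivity)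
      _ = (η * N) ^ 2 := by ring
  exact abs_le_of_sq_le_sq h3 (by positivity)

lemma SC_l2 {w v : ℕ → ℝ} {P : ℕ} (hw : ∀ n, |w n| ≤ 1) (hwP : ∀ n, P ≤ n → w n = 0) {N : ℕ} {S : ℝ}
    (hS : ∀ θ : ℝ, ‖∑ n ∈ range N, (v n : ℂ) *
        Complex.exp (2 * Real.pi * Complex.I * (θ : ℂ) * (n : ℂ))‖ ≤ S) :
    ∑ p ∈ range P, SC w v N p ^ 2 ≤ S ^ 2 * P := by
  have h := corr_l2 (N := N) (J := P) (fun n => (v n : ℂ)) (fun l => (w l : ℂ))
    (fun l hl => by simp [hwP l hl]) (S := S) (by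
      intro θ
      refine le_trans (le_of_eq ?_) (hS θ)
      congr 1
      apply Finset.sum_congr rfl
      intro n _
      congr 1
      unfold ex
      congr 1
      push_cast
      ring)
  have e1 : ∀ p ∈ range P, SC w v N p ^ 2 = ‖∑ n ∈ range N, (v n : ℂ) * (w (p + n) : ℂ)‖ ^ 2 := by
    intro p _
    have : ∑ n ∈ range N, (v n : ℂ) * (w (p + n) : ℂ) = ((SC w v N p : ℝ) : ℂ) := by
      unfold SC
      push_cast
      exact Finset.sum_congr rfl (fun n _ => mul_comm _ _)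
    rw [this, Complex.norm_real, Real.norm_eq_abs, sq_abs]
  rw [Finset.sum_congr rfl e1]
  refine le_trans h ?_
  apply mul_le_mul_of_nonneg_left _ (sq_nonneg _)
  calc ∑ l ∈ range P, ‖(w l : ℂ)‖ ^ 2 ≤ ∑ l ∈ range P, (1 : ℝ) := by
        apply Finset.sum_le_sum
        intro l _
        rw [Complex.norm_real, Real.norm_eq_abs]
        exact pow_le_one₀ (abs_nonneg _) (hw l)
    _ = P := by simp

theorem maximal_of_starStar (hSS : StarStar) : MaximalMoebius := by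
  intro ε' hε' δ hδ
  -- reduce to `ε ≤ 1`
  set ε := min ε' 1 with hε
  have hε0 : 0 < ε := lt_min hε' one_pos
  have hε1 : ε ≤ 1 := min_le_right _ _
  obtain ⟨N₁, hN₁⟩ := hSS ((ε / 8) ^ 2) (by positivity)
  obtain ⟨a₀, ha₀4, ha₀⟩ := tail_log_small (η := δ * (ε ^ 3 / 1024)) (by positivity)
  set N₀ := max N₁ a₀ with hN₀
  -- decompositions
  have hdec : ∀ N : ℕ, ∃ v₁ v₂ : ℕ → ℝ, N₁ ≤ N → (∀ n, n < N → mu n = v₁ n + v₂ n) ∧
    (∑ n ∈ range N, v₁ n ^ 2 ≤ (ε / 8) ^ 2 * (N : ℝ)) ∧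
    (∀ θ : ℝ, ‖∑ n ∈ range N, (v₂ n : ℂ) *
        Complex.exp (2 * Real.pi * Complex.I * (θ : ℂ) * (n : ℂ))‖
      ≤ (N : ℝ) * (Real.log N) ^ (-(3 / 5) : ℝ)) := by
    intro N
    by_cases h : N₁ ≤ N
    · obtain ⟨v₁, v₂, h1⟩ := hN₁ N h
      exact ⟨v₁, v₂, fun _ => h1⟩
    · exact ⟨0, 0, fun h' => absurd h' h⟩
  choose v₁ v₂ hv using hdec
  refine ⟨N₀, ?_⟩
  intro P w hw hwP
  set F : Set ℕ := {p : ℕ | p < P ∧ ∃ N : ℕ, N₀ ≤ N ∧
      ε' * (N : ℝ) < |∑ n ∈ range N, w (p + n) * mu n|} with hF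
  have hFfin : F.Finite := (Set.finite_lt_nat P).subset (fun p hp => hp.1)
  -- scales
  have hch : ∀ p : ℕ, ∃ N : ℕ, p ∈ F → N₀ ≤ N ∧ ε * (N : ℝ) < |SC w mu N p| := by
    intro p
    by_cases hp : p ∈ F
    · obtain ⟨_, N, h1, h2⟩ := hp
      refine ⟨N, fun _ => ⟨h1, ?_⟩⟩
      refine lt_of_le_of_lt ?_ h2
      exact mul_le_mul_of_nonneg_right (min_le_left _ _) (by positivity)
    · exact ⟨0, fun h => absurd h hp⟩
  choose Np hNp using hch
  set B : ℕ := 2 * (∑ p ∈ hFfin.toFinset, Np p) + 2 with hB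
  have hNpB : ∀ p ∈ F, 2 * Np p + 2 ≤ B := by
    intro p hp
    have : Np p ≤ ∑ p ∈ hFfin.toFinset, Np p :=
      Finset.single_le_sum (f := Np) (fun _ _ => Nat.zero_le _) (hFfin.mem_toFinset.mpr hp)
    omega
  -- lower bound for each bad position
  have hlow : ∀ p ∈ F, ε ^ 3 / 1024 ≤ ∑ M ∈ Ico N₀ B, SC w (v₂ M) M p ^ 2 / (M : ℝ) ^ 3 := by
    intro p hp
    obtain ⟨h1, h2⟩ := hNp p hp
    set N := Np p with hN
    have hN4 : 4 ≤ N := le_trans ha₀4 (le_trans (le_max_right _ _) h1)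
    have hNR : (4 : ℝ) ≤ N := by exact_mod_cast hN4
    have hN1 : N₁ ≤ N := le_trans (le_max_left _ _) h1
    set H := ⌊ε * N / 8⌋₊ with hH
    have hH1 : (H : ℝ) ≤ ε * N / 8 := Nat.floor_le (by positivity)
    have hH2 : ε * N / 8 < (H : ℝ) + 1 := Nat.lt_floor_add_one _
    have hHN : (H : ℝ) ≤ N / 8 := by
      have : ε * N ≤ 1 * N := mul_le_mul_of_nonneg_right hε1 (by positivity)
      linarith
    have hHN' : H ≤ N := by
      have : (H : ℝ) ≤ N := by linarith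
      exact_mod_cast this
    have hterm : ∀ h ∈ range (H + 1), ε ^ 2 / (128 * N) ≤
        SC w (v₂ (N + h)) (N + h) p ^ 2 / ((N + h : ℕ) : ℝ) ^ 3 := by
      intro h hh
      rw [mem_range] at hh
      have hhH : (h : ℝ) ≤ H := by exact_mod_cast Nat.lt_succ_iff.mp hh
      obtain ⟨d1, d2, _⟩ := hv (N + h) (by omega)
      have h0 : (0 : ℝ) ≤ h := by positivity
      have hlip := SC_lip hw N h p
      have hM : ((N + h : ℕ) : ℝ) ≤ 9 / 8 * N := by
        push_cast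
        linarith
      have e1 : SC w mu (N + h) p = SC w (v₁ (N + h)) (N + h) p + SC w (v₂ (N + h)) (N + h) p := by
        unfold SC
        rw [← Finset.sum_add_distrib]
        apply Finset.sum_congr rfl
        intro n hn
        rw [d1 n (mem_range.mp hn)]
        ring
      have e2 := SC_v1 (p := p) hw (η := ε / 8) (by positivity) d2
      have e3 : ε / 4 * N ≤ |SC w (v₂ (N + h)) (N + h) p| := by
        have f1 : |SC w mu N p| ≤ |SC w (v₂ (N + h)) (N + h) p| + |SC w (v₁ (N + h)) (N + h) p| +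
            |SC w mu (N + h) p - SC w mu N p| := by
          calc |SC w mu N p| = |SC w (v₂ (N + h)) (N + h) p + SC w (v₁ (N + h)) (N + h) p +
                (-(SC w mu (N + h) p - SC w mu N p))| := by
                congr 1
                rw [e1]
                ring
            _ ≤ |SC w (v₂ (N + h)) (N + h) p + SC w (v₁ (N + h)) (N + h) p| +
                |-(SC w mu (N + h) p - SC w mu N p)| := abs_add_le _ _
            _ ≤ _ := by
                rw [abs_neg]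
                gcongr
                exact abs_add_le _ _
        have f2 : ε / 8 * ((N + h : ℕ) : ℝ) ≤ ε / 8 * (9 / 8 * N) :=
          mul_le_mul_of_nonneg_left hM (by positivity)
        have f3 : (0 : ℝ) ≤ ε * N := by positivity
        nlinarith
      have e4 : (ε / 4 * N) ^ 2 ≤ SC w (v₂ (N + h)) (N + h) p ^ 2 := by
        rw [← sq_abs (SC w (v₂ (N + h)) (N + h) p)]
        exact pow_le_pow_left₀ (by positivity) e3 2
      have e5 : ((N + h : ℕ) : ℝ) ^ 3 ≤ 2 * (N : ℝ) ^ 3 := by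
        calc ((N + h : ℕ) : ℝ) ^ 3 ≤ (9 / 8 * N) ^ 3 := pow_le_pow_left₀ (by positivity) hM 3
          _ = (9 / 8) ^ 3 * (N : ℝ) ^ 3 := by ring
          _ ≤ 2 * (N : ℝ) ^ 3 := by
              apply mul_le_mul_of_nonneg_right _ (by positivity)
              norm_num
      calc ε ^ 2 / (128 * N) ≤ (ε / 4 * N) ^ 2 / (2 * (N : ℝ) ^ 3) := by
            rw [div_le_div_iff₀ (by positivity) (by positivity)]
            have : (0 : ℝ) ≤ ε ^ 2 * (N : ℝ) ^ 3 := by positivity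
            nlinarith
        _ ≤ SC w (v₂ (N + h)) (N + h) p ^ 2 / (2 * (N : ℝ) ^ 3) :=
            div_le_div_of_nonneg_right e4 (by positivity)
        _ ≤ SC w (v₂ (N + h)) (N + h) p ^ 2 / ((N + h : ℕ) : ℝ) ^ 3 := by
            apply div_le_div_of_nonneg_left (sq_nonneg _) _ e5
            have : (0 : ℝ) < ((N + h : ℕ) : ℝ) := by
              push_cast
              linarith
            positivity
    have hNpB' := hNpB p hp
    calc ε ^ 3 / 1024 = (ε * N / 8) * (ε ^ 2 / (128 * N)) := by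
          field_simp
          ring
      _ ≤ ((H : ℝ) + 1) * (ε ^ 2 / (128 * N)) :=
          mul_le_mul_of_nonneg_right hH2.le (by positivity)
      _ = ∑ h ∈ range (H + 1), ε ^ 2 / (128 * N) := by simp
      _ ≤ ∑ h ∈ range (H + 1), SC w (v₂ (N + h)) (N + h) p ^ 2 / ((N + h : ℕ) : ℝ) ^ 3 :=
          Finset.sum_le_sum hterm
      _ = ∑ M ∈ Ico N (N + (H + 1)), SC w (v₂ M) M p ^ 2 / (M : ℝ) ^ 3 := by
          rw [Finset.sum_Ico_eq_sum_range]
          simp
      _ ≤ ∑ M ∈ Ico N₀ B, SC w (v₂ M) M p ^ 2 / (M : ℝ) ^ 3 := by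
          apply Finset.sum_le_sum_of_subset_of_nonneg
          · intro M hM
            rw [mem_Ico] at hM ⊢
            omega
          · intro _ _ _
            positivity
  -- count
  have hcount : (hFfin.toFinset.card : ℝ) * (ε ^ 3 / 1024) ≤ P * (δ * (ε ^ 3 / 1024)) := by
    calc (hFfin.toFinset.card : ℝ) * (ε ^ 3 / 1024) = ∑ p ∈ hFfin.toFinset, ε ^ 3 / 1024 := by simp
      _ ≤ ∑ p ∈ hFfin.toFinset, ∑ M ∈ Ico N₀ B, SC w (v₂ M) M p ^ 2 / (M : ℝ) ^ 3 :=
          Finset.sum_le_sum (fun p hp => hlow p (hFfin.mem_toFinset.mp hp))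
      _ ≤ ∑ p ∈ range P, ∑ M ∈ Ico N₀ B, SC w (v₂ M) M p ^ 2 / (M : ℝ) ^ 3 := by
          apply Finset.sum_le_sum_of_subset_of_nonneg
          · intro p hp
            exact mem_range.mpr (hFfin.mem_toFinset.mp hp).1
          · intro _ _ _
            exact Finset.sum_nonneg (fun _ _ => by positivity)
      _ = ∑ M ∈ Ico N₀ B, (∑ p ∈ range P, SC w (v₂ M) M p ^ 2) / (M : ℝ) ^ 3 := by
          rw [Finset.sum_comm]
          apply Finset.sum_congr rfl
          intro M _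
          rw [Finset.sum_div]
      _ ≤ ∑ M ∈ Ico N₀ B, P * ((Real.log M) ^ (-(6 / 5) : ℝ) / M) := by
          apply Finset.sum_le_sum
          intro M hM
          rw [mem_Ico] at hM
          have hM4 : 4 ≤ M := le_trans ha₀4 (le_trans (le_max_right _ _) hM.1)
          have hMR : (4 : ℝ) ≤ M := by exact_mod_cast hM4
          have hlM : 0 < Real.log M := Real.log_pos (by linarith)
          obtain ⟨_, _, d3⟩ := hv M (le_trans (le_max_left _ _) hM.1)
          have h5 := SC_l2 hw hwP d3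
          rw [div_le_iff₀ (by positivity)]
          refine le_trans h5 (le_of_eq ?_)
          have e : ((Real.log M) ^ (-(3 / 5) : ℝ)) ^ 2 = (Real.log M) ^ (-(6 / 5) : ℝ) := by
            rw [← Real.rpow_natCast, ← Real.rpow_mul hlM.le]
            norm_num
          rw [mul_pow, e]
          field_simp
      _ = P * ∑ M ∈ Ico N₀ B, ((Real.log M) ^ (-(6 / 5) : ℝ) / M) := by rw [Finset.mul_sum]
      _ ≤ P * (δ * (ε ^ 3 / 1024)) :=
          mul_le_mul_of_nonneg_left (ha₀ N₀ B (le_max_right _ _)) (by positivity)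
  rw [Set.ncard_eq_toFinset_card F hFfin]
  have h6 : (hFfin.toFinset.card : ℝ) * (ε ^ 3 / 1024) ≤ (δ * P) * (ε ^ 3 / 1024) := by
    refine le_trans hcount (le_of_eq ?_)
    ring
  exact le_of_mul_le_mul_right h6 (by positivity)

end Pool.Agent.Helper25.MD
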